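import Pool.Agent.helper21.WV.Main
import Pool.Agent.helper44.Wild.Bridge

/-!
# MP_11236d_an: wild rational functions with a simple critical value

A critical value `c` of `A` is simple (`RF.SimpleVal`) if the fibre over `c` has exactly one
ramified point, and that point has index two.

Let `A` be a rational function of degree at least two which has (at least) one simple critical
value; nothing is assumed about the other fibres of `A`, and `A` may be decomposable.  Then `A` is
wild if and only if `A = B ∘ C` where `C` has degree at least two and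

* `C` has degree three, or
* `C` has a totally ramified point and a fibre with exactly two points
  (up to Moebius maps `C = x ^ a * (1 - x) ^ b`), or
* `C` has degree four and a totally ramified point, or
* `C` has degree four, a fibre of type `(2, 2)` and a point of index three, or
* `C` has degree five, a totally ramified point and a fibre of type `(2, 2, 1)`, or
* `C` has degree six, a fibre of type `(3, 3)` and a fibre of type `(4, 2)`, or
* `C` has degree six, a fibre of type `(3, 3)`, a fibre of type `(2, 2, 2)` and a point of index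
  three in a third fibre.
-/

namespace Pool.Agent.helper21.Kept.OneSimpleValue

open WildRat

/-- The classification of the wild rational functions with a simple critical value. -/
theorem result (A : RF) (hn : 2 ≤ A.n) :
    ((A.GenusZero ∨ A.GenusOne) → A.Wild) ∧
    ∀ c : P1, A.SimpleVal c →
      (A.Wild ↔
        ∃ B C : RF, A.IsComp B C ∧ 2 ≤ C.n ∧
          (C.n = 3 ∨
            (∃ z z1 z2, C.e z = C.n ∧ z1 ≠ z2 ∧ C.val z1 = C.val z2 ∧ C.e z1 + C.e z2 = C.n) ∨
            (C.n = 4 ∧ ∃ z, C.e z = 4) ∨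
            (C.n = 4 ∧ ∃ z1 z2 u, z1 ≠ z2 ∧ C.val z1 = C.val z2 ∧ C.e z1 = 2 ∧ C.e z2 = 2 ∧
              C.e u = 3) ∨
            (C.n = 5 ∧ ∃ z1 z2 u, z1 ≠ z2 ∧ C.val z1 = C.val z2 ∧ C.e z1 = 2 ∧ C.e z2 = 2 ∧
              C.e u = 5) ∨
            (C.n = 6 ∧ ∃ z1 z2 u v, z1 ≠ z2 ∧ C.val z1 = C.val z2 ∧ C.e z1 = 3 ∧ C.e z2 = 3 ∧
              C.val u = C.val v ∧ C.e u = 4 ∧ C.e v = 2) ∨
            (C.n = 6 ∧ ∃ z1 z2 w1 w2 w3 u, z1 ≠ z2 ∧ C.val z1 = C.val z2 ∧ C.e z1 = 3 ∧
              C.e z2 = 3 ∧ w1 ≠ w2 ∧ w1 ≠ w3 ∧ w2 ≠ w3 ∧ C.val w1 = C.val w2 ∧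
              C.val w1 = C.val w3 ∧ C.e w1 = 2 ∧ C.e w2 = 2 ∧ C.e w3 = 2 ∧ C.e u = 3 ∧
              C.val u ≠ C.val z1))) := by
  refine ⟨A.wild_of_genus (by omega), fun c hc => (WildV.main1 A hn c hc).trans ?_⟩
  constructor
  · rintro ⟨B, C, hcomp, h⟩
    refine ⟨B, C, hcomp, ?_, ?_⟩
    · rcases h with h | ⟨h, -⟩ | ⟨h, -⟩ | ⟨h, -⟩ | ⟨h, -⟩ | ⟨h, -⟩ | ⟨h, -⟩ <;> omega
    · rcases h with h | ⟨-, h⟩ | h | h | h | h | h
      · exact Or.inl h
      · exact Or.inr (Or.inl h)
      · exact Or.inr (Or.inr (Or.inl h))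
      · exact Or.inr (Or.inr (Or.inr (Or.inl h)))
      · exact Or.inr (Or.inr (Or.inr (Or.inr (Or.inl h))))
      · exact Or.inr (Or.inr (Or.inr (Or.inr (Or.inr (Or.inl h)))))
      · exact Or.inr (Or.inr (Or.inr (Or.inr (Or.inr (Or.inr h)))))
  · rintro ⟨B, C, hcomp, h2, h⟩
    refine ⟨B, C, hcomp, ?_⟩
    rcases h with h | h | h | h | h | h | h
    · exact Or.inl h
    · exact Or.inr (Or.inl ⟨h2, h⟩)
    · exact Or.inr (Or.inr (Or.inl h))
    · exact Or.inr (Or.inr (Or.inr (Or.inl h)))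
    · exact Or.inr (Or.inr (Or.inr (Or.inr (Or.inl h))))
    · exact Or.inr (Or.inr (Or.inr (Or.inr (Or.inr (Or.inl h)))))
    · exact Or.inr (Or.inr (Or.inr (Or.inr (Or.inr (Or.inr h)))))

end Pool.Agent.helper21.Kept.OneSimpleValue
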