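import Pool.Agent.helper21.KBR2.Stmt2

/-!
# Boundary rigidity of a Kähler metric among all metrics satisfying one scalar equation

Let `M` be the closed unit ball of `ℝⁿ`, `n = 2m ≥ 4`, and let `g₁` be a simple metric on `M` which is
(almost) Kähler for `J`, with a potential: `ω₁ = dd^c φ`.  Let `g₂` be an arbitrary Riemannian metric
on `M` which agrees with `g₁` to first order along `∂M`, and let `ω₂^H` be the fundamental form of its
`J`-invariant part.  If `d_{g₁} ≤ d_{g₂}` on `∂M × ∂M`, then
`∫_M φ · Λ²(dd^c ω₂^H) dV_{g₁} ≥ 0`, with equality only if `g₂ = g₁`.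

In particular, a simple Kähler metric is determined by its boundary distance function among all
metrics `g₂` (in first order contact along `∂M`) which satisfy the scalar equation
`dd^c ω₂^H ∧ ω₁^{m-2} = 0`, for instance when `ω₂^H` is pluriclosed.  No condition is imposed on the
part of `g₂` anti-invariant under `J`.

Ideas of the proof.
* The energy inequality `∫ tr_{g₁}(g₂ - g₁) dV_{g₁} ≥ 0` with its equality case (mass transport along
  the geodesic flow of `g₁` and `∫ (|v|₂ - |v|₁)² ≤ ∫ (|v|₂² - |v|₁²)`), from
  `Pool.Agent.helper21.KBR`.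
* With `κ = ω₂^H - ω₁`, `V = grad φ` (a Liouville field, `L_V ω₁ = ω₁`) one has
  `(m-1) ∫ κ ∧ ω₁^{m-1} = - ∫ (ι_V dκ) ∧ ω₁^{m-1}`, and by `J`-invariance of the volume form the
  right side is a contraction of `d^c κ` with the Hamiltonian field of `φ`, which one more
  integration by parts turns into a multiple of `∫ φ Λ²(dd^c κ)`.

Modules by helper25 (divergence of the Liouville contraction, Stokes), helper18 (divergence of the
`3`-form contraction, Liouville measure, geodesic flow), helper30 (mass transport, ellipsoids),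
helper63 (distances near the boundary), helper21 (Gauss lemma, minimality, energy inequality,
assembly).
-/

namespace Pool.Agent.Results.MP_07cd05_gt.ScalarEquation

open KBR KBR.St

/-- Rigidity of a Kähler metric under one scalar equation. -/
theorem result (n : ℕ) (hn : 3 ≤ n) (G₁ G₂ J : Fld n) (φ : E n → ℝ)
    (h₁ : KahlerPot G₁ J φ) (hexp : ∀ x ∈ M n, St.ExpDiffeo G₁ x) (h₂ : Metric G₂)
    (hc : Contact G₁ G₂) (hd : BdLe G₁ G₂) :
    0 ≤ vint G₁ (fun x => φ x * lamDDc G₁ J G₂ x) ∧
      (vint G₁ (fun x => φ x * lamDDc G₁ J G₂ x) = 0 → Same G₁ G₂) := by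
  have h := scalar_rigidity hn h₁.old (fun x hx => (hexp x hx).old) h₂.old hc.old hd
  have he : vint G₁ (fun x => φ x * lamDDc G₁ J G₂ x) =
      - ∫ x in M n, φ x * KBR.defect G₁ J G₂ x * Real.sqrt (G₁ x).det := by
    rw [vint, ← MeasureTheory.integral_neg]
    congr 1
    funext x
    rw [lamDDc_eq]
    ring
  rw [he]
  exact ⟨by linarith [h.1], fun h0 => h.2 (by linarith)⟩

end Pool.Agent.Results.MP_07cd05_gt.ScalarEquation
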